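import Pool.Agent.Helper1_NP9.Stmts

/-!
# NP9, module YB: basic facts on the sequence `Y`
-/

set_option autoImplicit false

namespace Pool.Agent.NP9.H39

open Pool.Agent.NP9

theorem Y_rec (a : ℤ) (n : ℕ) : Y a (n + 2) = 2 * a * Y a (n + 1) - Y a n := rfl

theorem yPell_aux (a : ℕ) (a1 : 1 < a) (n : ℕ) :
    Y (a : ℤ) n = (Pell.yn a1 n : ℤ) ∧ Y (a : ℤ) (n + 1) = (Pell.yn a1 (n + 1) : ℤ) := by
  induction n with
  | zero => exact ⟨rfl, by rw [zero_add, Pell.yn_one]; rfl⟩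
  | succ n ih =>
    refine ⟨ih.2, ?_⟩
    rw [Y_rec, ih.1, ih.2]
    have h := Pell.yn_succ_succ a1 n
    have h' : ((Pell.yn a1 (n + 2) : ℕ) : ℤ) + (Pell.yn a1 n : ℤ) =
        2 * (a : ℤ) * (Pell.yn a1 (n + 1) : ℤ) := by exact_mod_cast h
    change _ = ((Pell.yn a1 (n + 2) : ℕ) : ℤ)
    linarith

theorem yPell : YPellStmt := fun a a1 n => (yPell_aux a a1 n).1

theorem pell_nat (a : ℕ) (a1 : 1 < a) (n : ℕ) : Pell.xn a1 n * Pell.xn a1 n -
    (a * a - 1) * Pell.yn a1 n * Pell.yn a1 n = 1 := Pell.pell_eq a1 n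

theorem eq_pell_nat (a : ℕ) (a1 : 1 < a) (x y : ℕ) (h : x * x - (a * a - 1) * y * y = 1) :
    ∃ n, x = Pell.xn a1 n ∧ y = Pell.yn a1 n := Pell.eq_pell a1 h

theorem ySq : YSqStmt := by
  intro a y ha hy
  obtain ⟨b, rfl⟩ := Int.eq_ofNat_of_zero_le (by linarith : 0 ≤ a)
  obtain ⟨z, rfl⟩ := Int.eq_ofNat_of_zero_le hy
  have b1 : 1 < b := by exact_mod_cast (by linarith : (1 : ℤ) < (b : ℤ))
  have hb : 1 ≤ b * b := Nat.mul_pos (by omega) (by omega)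
  constructor
  · rintro ⟨r, hr⟩
    have hx : (r.natAbs : ℤ) * r.natAbs = ((b : ℤ) ^ 2 - 1) * (z : ℤ) ^ 2 + 1 := by
      rw [← Int.natAbs_mul_self' r] at hr
      exact hr.symm
    have hx' : r.natAbs * r.natAbs = (b * b - 1) * z * z + 1 := by
      zify [hb]
      rw [← Int.natCast_natAbs, hx]
      ring
    have h2 : r.natAbs * r.natAbs - (b * b - 1) * z * z = 1 := by omega
    obtain ⟨n, -, h3⟩ := eq_pell_nat b b1 r.natAbs z h2
    refine ⟨n, ?_⟩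
    rw [yPell b b1 n, ← h3]
  · rintro ⟨n, hn⟩
    rw [yPell b b1 n] at hn
    have h3 : z = Pell.yn b1 n := by exact_mod_cast hn
    have h4 := pell_nat b b1 n
    rw [← h3] at h4
    have h5 : Pell.xn b1 n * Pell.xn b1 n = (b * b - 1) * z * z + 1 := by omega
    refine ⟨(Pell.xn b1 n : ℤ), ?_⟩
    have h6 : ((Pell.xn b1 n : ℕ) : ℤ) * (Pell.xn b1 n : ℤ) =
        ((b : ℤ) * b - 1) * z * z + 1 := by
      have := congrArg (Nat.cast : ℕ → ℤ) h5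
      push_cast [Nat.cast_sub hb] at this
      exact this
    rw [h6]
    change ((b : ℤ) ^ 2 - 1) * (z : ℤ) ^ 2 + 1 = _
    ring

theorem yMod_aux (a : ℤ) (n : ℕ) : (a - 1) ∣ Y a n - n ∧ (a - 1) ∣ Y a (n + 1) - (n + 1) := by
  induction n with
  | zero => exact ⟨⟨0, by simp [Y]⟩, ⟨0, by simp [Y]⟩⟩
  | succ n ih =>
    obtain ⟨⟨u, hu⟩, ⟨v, hv⟩⟩ := ih
    refine ⟨⟨v, by push_cast; exact hv⟩, ⟨2 * a * v - u + 2 * (n + 1), ?_⟩⟩
    rw [Y_rec]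
    have h1 : Y a n = (a - 1) * u + n := by linarith
    have h2 : Y a (n + 1) = (a - 1) * v + (n + 1) := by linarith
    rw [h1, h2]
    push_cast
    ring

theorem yMod : YModStmt := fun a n => (yMod_aux a n).1

theorem yBd_aux (a : ℤ) (ha : 1 ≤ a) (n : ℕ) : 0 ≤ Y a n ∧
    (2 * a - 1) ^ n ≤ Y a (n + 1) ∧ Y a (n + 1) ≤ (2 * a) ^ n ∧ Y a n ≤ Y a (n + 1) := by
  induction n with
  | zero => exact ⟨le_refl 0, by simp [Y], by simp [Y], by simp [Y]⟩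
  | succ n ih =>
    obtain ⟨h0, h1, h2, h3⟩ := ih
    have h4 : 0 ≤ Y a (n + 1) := h0.trans h3
    refine ⟨h4, ?_, ?_, ?_⟩
    · rw [Y_rec, pow_succ]
      nlinarith
    · rw [Y_rec, pow_succ]
      nlinarith
    · rw [Y_rec]
      nlinarith

theorem yBd : YBdStmt := fun a n ha => (yBd_aux a ha n).2

end Pool.Agent.NP9.H39
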